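import Mathlib

/-!
# Connected vertex sets in graphs of minimum degree at least three

For a connected set `X` let `bd X` be its outer boundary and `far X` the set of vertices neither in
`X` nor adjacent to `X`. We show that the number of pairs `(w, Y)`, `w ∈ bd X`, `Y ⊆ far X`
connected and adjacent to `w`, is at least `2 |far X|`. Each triple `(X, w, Y)` gives the cut
vertex `w` of the connected set `X ∪ {w} ∪ Y`, at most two to one.
-/

set_option autoImplicit false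

open Classical

namespace Pool.Agent.H295Z.CD

open Finset

variable {V : Type} [Fintype V] {G : SimpleGraph V}

/-- reachability inside `S` -/
def Rch (G : SimpleGraph V) (S : Finset V) (a b : V) : Prop :=
  Relation.ReflTransGen (fun x y => G.Adj x y ∧ x ∈ S ∧ y ∈ S) a b

/-- connected finite vertex set -/
def Conn (G : SimpleGraph V) (S : Finset V) : Prop :=
  S.Nonempty ∧ ∀ a ∈ S, ∀ b ∈ S, Rch G S a b

omit [Fintype V] in
lemma Rch.mono {S T : Finset V} (h : S ⊆ T) {a b : V} (hab : Rch G S a b) : Rch G T a b := by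
  induction hab with
  | refl => exact Relation.ReflTransGen.refl
  | tail _ hcd ih => exact Relation.ReflTransGen.tail ih ⟨hcd.1, h hcd.2.1, h hcd.2.2⟩

omit [Fintype V] in
lemma Rch.trans {S : Finset V} {a b c : V} (h1 : Rch G S a b) (h2 : Rch G S b c) : Rch G S a c :=
  Relation.ReflTransGen.trans h1 h2

omit [Fintype V] in
lemma Rch.refl (S : Finset V) (a : V) : Rch G S a a := Relation.ReflTransGen.refl

omit [Fintype V] in
lemma Rch.single {S : Finset V} {a b : V} (h : G.Adj a b) (ha : a ∈ S) (hb : b ∈ S) :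
    Rch G S a b := Relation.ReflTransGen.single ⟨h, ha, hb⟩

omit [Fintype V] in
lemma conn_singleton (v : V) : Conn G {v} := by
  refine ⟨singleton_nonempty v, fun a ha b hb => ?_⟩
  rw [mem_singleton] at ha hb
  subst ha; subst hb
  exact Rch.refl _ _

omit [Fintype V] in
lemma Conn.union {S T : Finset V} (hS : Conn G S) (hT : Conn G T) {z : V} (hzS : z ∈ S)
    (hzT : z ∈ T) : Conn G (S ∪ T) := by
  refine ⟨⟨z, mem_union_left _ hzS⟩, fun a ha b hb => ?_⟩
  have h1 : Rch G (S ∪ T) a z := by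
    rcases mem_union.1 ha with ha | ha
    · exact (hS.2 a ha z hzS).mono subset_union_left
    · exact (hT.2 a ha z hzT).mono subset_union_right
  have h2 : Rch G (S ∪ T) z b := by
    rcases mem_union.1 hb with hb | hb
    · exact (hS.2 z hzS b hb).mono subset_union_left
    · exact (hT.2 z hzT b hb).mono subset_union_right
  exact h1.trans h2

omit [Fintype V] in
lemma Conn.ins {S : Finset V} (hS : Conn G S) {z x : V} (hz : z ∈ S) (hadj : G.Adj z x) :
    Conn G (insert x S) := by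
  have hzi : z ∈ insert x S := mem_insert_of_mem hz
  have hxi : x ∈ insert x S := mem_insert_self _ _
  refine ⟨⟨x, hxi⟩, fun a ha b hb => ?_⟩
  have h1 : Rch G (insert x S) a z := by
    rcases mem_insert.1 ha with rfl | ha
    · exact Rch.single hadj.symm hxi hzi
    · exact (hS.2 a ha z hz).mono (subset_insert _ _)
  have h2 : Rch G (insert x S) z b := by
    rcases mem_insert.1 hb with rfl | hb
    · exact Rch.single hadj hzi hxi
    · exact (hS.2 z hz b hb).mono (subset_insert _ _)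
  exact h1.trans h2

omit [Fintype V] in
lemma Rch.exit {K : Finset V} (p : V → Prop) {a b : V} (h : Rch G K a b) (ha : p a) (hb : ¬ p b) :
    ∃ z ∈ K, ∃ x ∈ K, p z ∧ ¬ p x ∧ G.Adj z x := by
  induction h with
  | refl => exact absurd ha hb
  | @tail c d _ hcd ih =>
    by_cases hc : p c
    · exact ⟨c, hcd.2.1, d, hcd.2.2, hc, hb, hcd.1⟩
    · exact ih hc

omit [Fintype V] in
lemma Conn.exit {K Y : Finset V} (hK : Conn G K) (hY : Y.Nonempty) (hYK : Y ⊆ K)
    (hlt : Y.card < K.card) : ∃ z ∈ Y, ∃ x ∈ K, x ∉ Y ∧ G.Adj z x := by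
  obtain ⟨a, ha⟩ := hY
  obtain ⟨b, hbK, hbY⟩ : ∃ b ∈ K, b ∉ Y := by
    by_contra hcon
    push Not at hcon
    exact absurd (card_le_card hcon) (not_le.2 hlt)
  obtain ⟨z, -, x, hx, hz, hxY, hadj⟩ :=
    (hK.2 a (hYK ha) b hbK).exit (fun v => v ∈ Y) ha hbY
  exact ⟨z, hz, x, hx, hxY, hadj⟩

omit [Fintype V] in
lemma exists_size {K : Finset V} (hK : Conn G K) {r : V} (hr : r ∈ K) (i : ℕ) (h1 : 1 ≤ i)
    (h2 : i ≤ K.card) : ∃ Y ⊆ K, r ∈ Y ∧ Conn G Y ∧ Y.card = i := by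
  induction i, h1 using Nat.le_induction with
  | base => exact ⟨{r}, by simpa using hr, by simp, conn_singleton r, by simp⟩
  | succ i _ ih =>
    obtain ⟨Y, hYK, hrY, hY, hc⟩ := ih (by omega)
    obtain ⟨z, hz, x, hx, hxY, hadj⟩ := hK.exit hY.1 hYK (by omega)
    exact ⟨insert x Y, insert_subset hx hYK, mem_insert_of_mem hrY, hY.ins hz hadj,
      by rw [card_insert_of_notMem hxY, hc]⟩

omit [Fintype V] in
lemma exists_two {K : Finset V} (hK : Conn G K) {r x1 x2 : V} (hr : r ∈ K) (hx1 : x1 ∈ K)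
    (hx2 : x2 ∈ K) (h12 : x1 ≠ x2) (a1 : G.Adj r x1) (a2 : G.Adj r x2) (i : ℕ) (h1 : 3 ≤ i)
    (h2 : i ≤ K.card) : ∃ Y ⊆ K, r ∈ Y ∧ Conn G Y ∧ Y.card = i ∧ ∃ y1 ∈ Y, ∃ y2 ∈ Y,
      y1 ≠ y2 ∧ y1 ≠ r ∧ y2 ≠ r ∧ Conn G (Y.erase y1) ∧ Conn G (Y.erase y2) := by
  induction i, h1 using Nat.le_induction with
  | base =>
    have n1 : x1 ≠ r := a1.ne'
    have n2 : x2 ≠ r := a2.ne'
    have c1 : Conn G (insert x1 {r}) := (conn_singleton r).ins (mem_singleton_self r) a1
    have c2 : Conn G (insert x2 {r}) := (conn_singleton r).ins (mem_singleton_self r) a2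
    refine ⟨insert x2 (insert x1 {r}), ?_, by simp, c1.ins (z := r) (by simp) a2, ?_, x1, by simp,
      x2, by simp, h12, n1, n2, ?_, ?_⟩
    · intro v hv
      simp only [mem_insert, mem_singleton] at hv
      rcases hv with rfl | rfl | rfl <;> assumption
    · rw [card_insert_of_notMem (by simp [h12.symm, n2]), card_insert_of_notMem (by simp [n1])]
      simp
    · convert c2 using 1
      ext v
      simp only [mem_erase, mem_insert, mem_singleton]
      constructor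
      · rintro ⟨h, h' | h' | h'⟩
        · exact Or.inl h'
        · exact absurd h' h
        · exact Or.inr h'
      · rintro (rfl | rfl)
        · exact ⟨h12.symm, Or.inl rfl⟩
        · exact ⟨n1.symm, Or.inr (Or.inr rfl)⟩
    · rw [erase_insert (by simp [h12.symm, n2])]
      exact c1
  | succ i _ ih =>
    obtain ⟨Y, hYK, hrY, hY, hc, y1, hy1, y2, hy2, hne, n1, n2, c1, c2⟩ := ih (by omega)
    obtain ⟨z, hz, x, hx, hxY, hadj⟩ := hK.exit hY.1 hYK (by omega)
    have key : ∀ y ∈ Y, y ≠ z → Conn G (Y.erase y) → Conn G ((insert x Y).erase y) := by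
      intro y hy hyz hc
      have hxy : x ≠ y := fun h => hxY (h ▸ hy)
      rw [erase_insert_of_ne hxy]
      exact hc.ins (mem_erase.2 ⟨hyz.symm, hz⟩) hadj
    have hxr : x ≠ r := fun h => hxY (h ▸ hrY)
    have cx : Conn G ((insert x Y).erase x) := by rw [erase_insert hxY]; exact hY
    refine ⟨insert x Y, insert_subset hx hYK, mem_insert_of_mem hrY, hY.ins hz hadj,
      by rw [card_insert_of_notMem hxY, hc], x, mem_insert_self _ _, ?_⟩
    by_cases h : y1 = z
    · have h' : y2 ≠ z := fun h'' => hne (h.trans h''.symm)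
      exact ⟨y2, mem_insert_of_mem hy2, fun e => hxY (e ▸ hy2), hxr, n2, cx, key y2 hy2 h' c2⟩
    · exact ⟨y1, mem_insert_of_mem hy1, fun e => hxY (e ▸ hy1), hxr, n1, cx, key y1 hy1 h c1⟩

/-- connected subsets of `R` adjacent to `w` -/
noncomputable def fam (G : SimpleGraph V) (R : Finset V) (w : V) : Finset (Finset V) :=
  univ.filter (fun Y => Y ⊆ R ∧ Conn G Y ∧ ∃ y ∈ Y, G.Adj w y)

lemma mem_fam {R Y : Finset V} {w : V} :
    Y ∈ fam G R w ↔ Y ⊆ R ∧ Conn G Y ∧ ∃ y ∈ Y, G.Adj w y := by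
  simp [fam]

/-- those of size `i` -/
noncomputable def lev (G : SimpleGraph V) (R : Finset V) (w : V) (i : ℕ) : Finset (Finset V) :=
  (fam G R w).filter (fun Y => Y.card = i)

lemma mem_lev {R Y : Finset V} {w : V} {i : ℕ} :
    Y ∈ lev G R w i ↔ (Y ⊆ R ∧ Conn G Y ∧ ∃ y ∈ Y, G.Adj w y) ∧ Y.card = i := by
  simp [lev, mem_fam]

lemma card_fam (R : Finset V) (w : V) :
    (fam G R w).card = ∑ i ∈ Icc 1 R.card, (lev G R w i).card := by
  apply card_eq_sum_card_fiberwise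
  intro Y hY
  have hY' := mem_fam.1 hY
  simp only [coe_Icc, Set.mem_Icc]
  exact ⟨hY'.2.1.1.card_pos, card_le_card hY'.1⟩

lemma one_le_lev {K : Finset V} (hK : Conn G K) {r w : V} (hr : r ∈ K) (hw : G.Adj w r) (i : ℕ)
    (h1 : 1 ≤ i) (h2 : i ≤ K.card) : 1 ≤ (lev G K w i).card := by
  obtain ⟨Y, hYK, hrY, hY, hc⟩ := exists_size hK hr i h1 h2
  exact card_pos.2 ⟨Y, mem_lev.2 ⟨⟨hYK, hY, r, hrY, hw⟩, hc⟩⟩

lemma card_le_fam {K : Finset V} (hK : Conn G K) {r w : V} (hr : r ∈ K) (hw : G.Adj w r) :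
    K.card ≤ (fam G K w).card := by
  rw [card_fam]
  calc K.card = ∑ _i ∈ Icc 1 K.card, 1 := by simp
    _ ≤ _ := sum_le_sum fun i hi => one_le_lev hK hr hw i (mem_Icc.1 hi).1 (mem_Icc.1 hi).2

lemma two_le_lev {K : Finset V} (hK : Conn G K) {r w x1 x2 : V} (hr : r ∈ K) (hw : G.Adj w r)
    (hx1 : x1 ∈ K) (hx2 : x2 ∈ K) (h12 : x1 ≠ x2) (a1 : G.Adj r x1) (a2 : G.Adj r x2) (i : ℕ)
    (h1 : 2 ≤ i) (h2 : i + 1 ≤ K.card) : 2 ≤ (lev G K w i).card := by
  obtain ⟨Y, hYK, hrY, -, hc, y1, hy1, y2, hy2, hne, n1, n2, c1, c2⟩ :=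
    exists_two hK hr hx1 hx2 h12 a1 a2 (i + 1) (by omega) h2
  refine one_lt_card.2 ⟨Y.erase y1, ?_, Y.erase y2, ?_, ?_⟩
  · exact mem_lev.2 ⟨⟨(erase_subset _ _).trans hYK, c1, r, mem_erase.2 ⟨n1.symm, hrY⟩, hw⟩,
      by rw [card_erase_of_mem hy1, hc]; rfl⟩
  · exact mem_lev.2 ⟨⟨(erase_subset _ _).trans hYK, c2, r, mem_erase.2 ⟨n2.symm, hrY⟩, hw⟩,
      by rw [card_erase_of_mem hy2, hc]; rfl⟩
  · intro h
    have : y2 ∈ Y.erase y1 := mem_erase.2 ⟨hne.symm, hy2⟩
    rw [h] at this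
    exact (mem_erase.1 this).1 rfl

lemma sum_bound (k p q : ℕ) (a : ℕ → ℕ) (hk : 1 ≤ k) (hp : p ∈ Icc 1 k) (hq : q ∈ Icc 1 k)
    (h : ∀ i ∈ Icc 1 k, 2 + (if i = p then 1 else 0) + (if i = q then 1 else 0) ≤
      a i + (if i = 1 then 1 else 0) + (if i = k then 1 else 0)) :
    2 * k ≤ ∑ i ∈ Icc 1 k, a i := by
  have := sum_le_sum h
  have h1 : 1 ∈ Icc 1 k := mem_Icc.2 ⟨le_rfl, hk⟩
  have h2 : k ∈ Icc 1 k := mem_Icc.2 ⟨hk, le_rfl⟩
  simp only [sum_add_distrib, sum_ite_eq', hp, hq, h1, h2, if_true, sum_const, Nat.card_Icc,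
    smul_eq_mul] at this
  have e : k + 1 - 1 = k := by omega
  rw [e] at this
  omega

lemma bound_of {K : Finset V} (hK : Conn G K) {r w x1 x2 : V} (hr : r ∈ K) (hw : G.Adj w r)
    (hx1 : x1 ∈ K) (hx2 : x2 ∈ K) (h12 : x1 ≠ x2) (a1 : G.Adj r x1) (a2 : G.Adj r x2)
    (p : ℕ) (hp : 1 ≤ p) (hpk : p + 2 ≤ K.card)
    (h1 : 3 ≤ (lev G K w p).card + (if p = 1 then 1 else 0))
    (h2 : 3 ≤ (lev G K w (p + 1)).card) : 2 * K.card ≤ (fam G K w).card := by
  rw [card_fam]
  refine sum_bound K.card p (p + 1) _ (by omega) (mem_Icc.2 ⟨hp, by omega⟩)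
    (mem_Icc.2 ⟨by omega, by omega⟩) fun i hi => ?_
  obtain ⟨hi1, hi2⟩ := mem_Icc.1 hi
  have b1 := one_le_lev hK hr hw i hi1 hi2
  by_cases e1 : i = p
  · subst e1
    have : ¬ i = i + 1 := by omega
    simp only [if_true, this, if_false]
    omega
  by_cases e2 : i = p + 1
  · subst e2
    simp only [if_true, e1, if_false]
    omega
  simp only [e1, e2, if_false]
  by_cases e3 : i = 1
  · simp only [e3, if_true] at b1 ⊢
    omega
  by_cases e4 : i = K.card
  · rw [if_pos e4]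
    omega
  have := two_le_lev hK hr hw hx1 hx2 h12 a1 a2 i (by omega) (by omega)
  omega

lemma lev2 {K : Finset V} {w a b : V} (ha : a ∈ K) (hb : b ∈ K) (hw : G.Adj w a)
    (hab : G.Adj a b) : insert b {a} ∈ lev G K w 2 := by
  refine mem_lev.2 ⟨⟨?_, (conn_singleton a).ins (mem_singleton_self a) hab, a, by simp, hw⟩, ?_⟩
  · exact insert_subset hb (singleton_subset_iff.2 ha)
  · rw [card_insert_of_notMem (by simpa using hab.ne'), card_singleton]

lemma levS {K Y : Finset V} {w z c : V} {i : ℕ} (hY : Y ∈ lev G K w i) (hc : c ∈ K) (hz : z ∈ Y)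
    (hzc : G.Adj z c) (hcY : c ∉ Y) : insert c Y ∈ lev G K w (i + 1) := by
  obtain ⟨⟨h1, h2, y, hy, hwy⟩, h3⟩ := mem_lev.1 hY
  exact mem_lev.2 ⟨⟨insert_subset hc h1, h2.ins hz hzc, y, mem_insert_of_mem hy, hwy⟩,
    by rw [card_insert_of_notMem hcY, h3]⟩

omit [Fintype V] in
lemma ne_of_mem {A B : Finset V} (x : V) (hA : x ∈ A) (hB : x ∉ B) : A ≠ B :=
  fun h => hB (h ▸ hA)

lemma le_card_of_lev {K Y : Finset V} {w : V} {i : ℕ} (hY : Y ∈ lev G K w i) : i ≤ K.card := by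
  obtain ⟨⟨h1, -⟩, h3⟩ := mem_lev.1 hY
  exact h3 ▸ card_le_card h1

lemma single_root (hdeg : ∀ v p q : V, ∃ u, G.Adj v u ∧ u ≠ p ∧ u ≠ q) {K : Finset V}
    (hK : Conn G K) {r w : V} (hcl : ∀ v ∈ K, ∀ u, G.Adj v u → u ∈ K ∨ u = w) (hr : r ∈ K)
    (hw : G.Adj w r) : 2 * K.card ≤ (fam G K w).card := by
  obtain ⟨x1, a1, x1w, -⟩ := hdeg r w w
  obtain ⟨x2, a2, x2w, h21⟩ := hdeg r w x1
  have hx1 : x1 ∈ K := (hcl r hr x1 a1).resolve_right x1w
  have hx2 : x2 ∈ K := (hcl r hr x2 a2).resolve_right x2w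
  have h12 : x1 ≠ x2 := h21.symm
  have n1 : x1 ≠ r := a1.ne'
  have n2 : x2 ≠ r := a2.ne'
  have s1 := lev2 hr hx1 hw a1
  have s2 := lev2 hr hx2 hw a2
  have s12 : insert x2 (insert x1 {r}) ∈ lev G K w 3 :=
    levS s1 hx2 (z := r) (by simp) a2 (by simp [h21, n2])
  have k3 : 3 ≤ K.card := le_card_of_lev s12
  by_cases hA : ∃ r2 ∈ K, r2 ≠ r ∧ G.Adj w r2
  · obtain ⟨r2, hr2, hne, hw2⟩ := hA
    obtain ⟨y, ay, yw, yr⟩ := hdeg r2 w r
    have hy : y ∈ K := (hcl r2 hr2 y ay).resolve_right yw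
    have s3 := lev2 hr2 hy hw2 ay
    refine bound_of hK hr hw hx1 hx2 h12 a1 a2 1 le_rfl k3 ?_ ?_
    · have : 1 < (lev G K w 1).card := by
        refine one_lt_card.2 ⟨{r}, ?_, {r2}, ?_, ?_⟩
        · exact mem_lev.2 ⟨⟨singleton_subset_iff.2 hr, conn_singleton r, r, by simp, hw⟩, by simp⟩
        · exact mem_lev.2 ⟨⟨singleton_subset_iff.2 hr2, conn_singleton r2, r2, by simp, hw2⟩,
            by simp⟩
        · simpa using hne.symm
      simp only [if_true]
      omega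
    · exact two_lt_card_iff.2 ⟨_, _, _, s1, s2, s3, ne_of_mem x1 (by simp) (by simp [h12, n1]),
        ne_of_mem r (by simp) (by simp [yr.symm, hne.symm]),
        ne_of_mem r (by simp) (by simp [yr.symm, hne.symm])⟩
  · push Not at hA
    have hin : ∀ v ∈ K, v ≠ r → ∀ u, G.Adj v u → u ∈ K := by
      intro v hv hvr u hu
      rcases hcl v hv u hu with h | h
      · exact h
      · exact absurd (h ▸ hu.symm) (hA v hv hvr)
    obtain ⟨y1, b1, y1r, y1x⟩ := hdeg x1 r x2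
    obtain ⟨y2, b2, y2r, y2x⟩ := hdeg x2 r x1
    have hy1 : y1 ∈ K := hin x1 hx1 n1 y1 b1
    have hy2 : y2 ∈ K := hin x2 hx2 n2 y2 b2
    have m1 : y1 ≠ x1 := b1.ne'
    have m2 : y2 ≠ x2 := b2.ne'
    have t1 : insert y1 (insert x1 {r}) ∈ lev G K w 3 :=
      levS s1 hy1 (z := x1) (by simp) b1 (by simp [m1, y1r])
    have t2 : insert y2 (insert x2 {r}) ∈ lev G K w 3 :=
      levS s2 hy2 (z := x2) (by simp) b2 (by simp [m2, y2r])
    have l3 : 3 ≤ (lev G K w 3).card :=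
      two_lt_card_iff.2 ⟨_, _, _, s12, t1, t2, ne_of_mem x2 (by simp) (by simp [y1x.symm, h21, n2]),
        ne_of_mem x1 (by simp) (by simp [y2x.symm, h12, n1]),
        ne_of_mem x1 (by simp) (by simp [y2x.symm, h12, n1])⟩
    have u1 : insert y1 (insert x2 (insert x1 {r})) ∈ lev G K w 4 :=
      levS s12 hy1 (z := x1) (by simp) b1 (by simp [m1, y1r, y1x])
    have k4 : 4 ≤ K.card := le_card_of_lev u1
    by_cases hB : ∃ x3 ∈ K, G.Adj r x3 ∧ x3 ≠ x1 ∧ x3 ≠ x2
    · obtain ⟨x3, hx3, a3, h31, h32⟩ := hB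
      have s3 := lev2 hr hx3 hw a3
      refine bound_of hK hr hw hx1 hx2 h12 a1 a2 2 (by norm_num) k4 ?_ l3
      have : 2 < (lev G K w 2).card :=
        two_lt_card_iff.2 ⟨_, _, _, s1, s2, s3, ne_of_mem x1 (by simp) (by simp [h12, n1]),
          ne_of_mem x1 (by simp) (by simp [h31.symm, n1]),
          ne_of_mem x2 (by simp) (by simp [h32.symm, n2])⟩
      omega
    · push Not at hB
      obtain ⟨z, c, zx1, zx2⟩ := hdeg y1 x1 x2
      have hz : z ∈ K := hin y1 hy1 y1r z c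
      have zr : z ≠ r := by
        rintro rfl
        exact y1x (hB y1 hy1 c.symm m1)
      have zy : z ≠ y1 := c.ne'
      have u2 : insert z (insert y1 (insert x1 {r})) ∈ lev G K w 4 :=
        levS t1 hz (z := y1) (by simp) c (by simp [zy, zx1, zr])
      have u5 : insert z (insert y1 (insert x2 (insert x1 {r}))) ∈ lev G K w 5 :=
        levS u1 hz (z := y1) (by simp) c (by simp [zy, zx1, zx2, zr])
      have k5 : 5 ≤ K.card := le_card_of_lev u5
      have d12 : (insert y1 (insert x2 (insert x1 {r})) : Finset V) ≠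
          insert z (insert y1 (insert x1 {r})) :=
        ne_of_mem x2 (by simp) (by simp [zx2.symm, y1x.symm, h21, n2])
      refine bound_of hK hr hw hx1 hx2 h12 a1 a2 3 (by norm_num) k5 (by omega) ?_
      by_cases e : y2 = y1
      · subst e
        have u3 : insert z (insert y2 (insert x2 {r})) ∈ lev G K w 4 :=
          levS t2 hz (z := y2) (by simp) c (by simp [zy, zx2, zr])
        exact two_lt_card_iff.2 ⟨_, _, _, u1, u2, u3, d12,
          ne_of_mem x1 (by simp) (by simp [zx1.symm, y2x.symm, h12, n1]),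
          ne_of_mem x1 (by simp) (by simp [zx1.symm, y2x.symm, h12, n1])⟩
      · have u3 : insert y2 (insert x2 (insert x1 {r})) ∈ lev G K w 4 :=
          levS s12 hy2 (z := x2) (by simp) b2 (by simp [m2, y2r, y2x])
        exact two_lt_card_iff.2 ⟨_, _, _, u1, u2, u3, d12,
          ne_of_mem y1 (by simp) (by simp [Ne.symm e, y1x, m1, y1r]),
          (ne_of_mem x2 (by simp) (by simp [zx2.symm, y1x.symm, h21, n2])).symm⟩

lemma conn_univ (hG : G.Connected) : Conn G univ := by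
  have := hG.nonempty
  refine ⟨univ_nonempty, fun a _ b _ => ?_⟩
  have h := (SimpleGraph.reachable_iff_reflTransGen a b).1 (hG.preconnected a b)
  induction h with
  | refl => exact Rch.refl _ _
  | tail _ hcd ih => exact (ih (mem_univ _)).trans (Rch.single hcd (mem_univ _) (mem_univ _))

lemma component (hG : G.Connected) (hdeg : ∀ v p q : V, ∃ u, G.Adj v u ∧ u ≠ p ∧ u ≠ q)
    {K B : Finset V} (hK : Conn G K) (hcl : ∀ v ∈ K, ∀ u, G.Adj v u → u ∈ K ∨ u ∈ B)
    {x0 : V} (hx0 : x0 ∉ K) : 2 * K.card ≤ ∑ w ∈ B, (fam G K w).card := by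
  obtain ⟨a, ha⟩ := hK.1
  obtain ⟨r, -, w, -, hr, hwK, hadj⟩ :=
    ((conn_univ hG).2 a (mem_univ _) x0 (mem_univ _)).exit (fun v => v ∈ K) ha hx0
  have hwB : w ∈ B := (hcl r hr w hadj).resolve_left hwK
  by_cases h2 : ∃ r' ∈ K, ∃ w' ∈ B, w' ≠ w ∧ G.Adj r' w'
  · obtain ⟨r', hr', w', hw', hne, hadj'⟩ := h2
    have e1 := card_le_fam hK hr hadj.symm
    have e2 := card_le_fam hK hr' hadj'.symm
    have hs : ({w', w} : Finset V) ⊆ B := by
      intro v hv
      simp only [mem_insert, mem_singleton] at hv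
      rcases hv with rfl | rfl <;> assumption
    have := sum_le_sum_of_subset (f := fun w => (fam G K w).card) hs
    rw [sum_pair hne] at this
    omega
  · push Not at h2
    have := single_root hdeg hK (w := w) (fun v hv u hu => by
      rcases hcl v hv u hu with h | h
      · exact Or.inl h
      · by_cases e : u = w
        · exact Or.inr e
        · exact absurd hu (h2 v hv u h e)) hr hadj.symm
    exact this.trans (single_le_sum (f := fun w => (fam G K w).card) (fun _ _ => Nat.zero_le _) hwB)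

lemma closed_bound (hG : G.Connected) (hdeg : ∀ v p q : V, ∃ u, G.Adj v u ∧ u ≠ p ∧ u ≠ q)
    (B : Finset V) (x0 : V) (n : ℕ) : ∀ R : Finset V, R.card = n →
      (∀ v ∈ R, ∀ u, G.Adj v u → u ∈ R ∨ u ∈ B) → x0 ∉ R →
      2 * R.card ≤ ∑ w ∈ B, (fam G R w).card := by
  induction n using Nat.strong_induction_on with
  | _ n ih =>
  intro R hn hcl hx0
  rcases R.eq_empty_or_nonempty with rfl | ⟨a, ha⟩
  · simp
  obtain ⟨K, hKm, hmax⟩ := exists_max_image (univ.filter fun K : Finset V => K ⊆ R ∧ Conn G K)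
    card ⟨{a}, by simpa using ⟨ha, conn_singleton a⟩⟩
  obtain ⟨hKR, hK⟩ := (mem_filter.1 hKm).2
  have hclK : ∀ v ∈ K, ∀ u ∈ R, G.Adj v u → u ∈ K := by
    intro v hv u hu hadj
    by_contra hcon
    have := hmax (insert u K) (mem_filter.2 ⟨mem_univ _, insert_subset hu hKR, hK.ins hv hadj⟩)
    rw [card_insert_of_notMem hcon] at this
    omega
  have c1 := component hG hdeg hK (B := B) (fun v hv u hadj => by
    rcases hcl v (hKR hv) u hadj with h | h
    · exact Or.inl (hclK v hv u h hadj)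
    · exact Or.inr h) (x0 := x0) (fun h => hx0 (hKR h))
  have hpos := hK.1.card_pos
  have hcard : (R \ K).card + K.card = R.card := card_sdiff_add_card_eq_card hKR
  have c2 := ih (R \ K).card (by omega) (R \ K) rfl (fun v hv u hadj => by
    rcases hcl v (mem_sdiff.1 hv).1 u hadj with h | h
    · refine Or.inl (mem_sdiff.2 ⟨h, fun hu => (mem_sdiff.1 hv).2 ?_⟩)
      exact hclK u hu v (mem_sdiff.1 hv).1 hadj.symm
    · exact Or.inr h) (fun h => hx0 (mem_sdiff.1 h).1)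
  have c3 : ∀ w ∈ B, (fam G K w).card + (fam G (R \ K) w).card ≤ (fam G R w).card := by
    intro w _
    rw [← card_union_of_disjoint]
    · apply card_le_card
      intro Y hY
      rcases mem_union.1 hY with h | h
      · exact mem_fam.2 ⟨(mem_fam.1 h).1.trans hKR, (mem_fam.1 h).2⟩
      · exact mem_fam.2 ⟨(mem_fam.1 h).1.trans sdiff_subset, (mem_fam.1 h).2⟩
    · rw [disjoint_left]
      intro Y h1 h2
      obtain ⟨y, hy⟩ := (mem_fam.1 h1).2.1.1
      exact (mem_sdiff.1 ((mem_fam.1 h2).1 hy)).2 ((mem_fam.1 h1).1 hy)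
  have c4 := sum_le_sum c3
  rw [sum_add_distrib] at c4
  omega

/-- outer boundary -/
noncomputable def bd (G : SimpleGraph V) (X : Finset V) : Finset V :=
  univ.filter (fun v => v ∉ X ∧ ∃ x ∈ X, G.Adj x v)

/-- far vertices -/
noncomputable def far (G : SimpleGraph V) (X : Finset V) : Finset V :=
  univ.filter (fun v => v ∉ X ∧ ¬ ∃ x ∈ X, G.Adj x v)

/-- cut vertices -/
noncomputable def cutv (G : SimpleGraph V) (U : Finset V) : Finset V :=
  U.filter (fun v => ¬ Conn G (U.erase v) ∧ (U.erase v).Nonempty)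

/-- non-cut vertices -/
noncomputable def ncv (G : SimpleGraph V) (U : Finset V) : Finset V :=
  U.filter (fun v => Conn G (U.erase v))

/-- all connected sets -/
noncomputable def CC (G : SimpleGraph V) : Finset (Finset V) := univ.filter (Conn G)

lemma mem_CC {X : Finset V} : X ∈ CC G ↔ Conn G X := by simp [CC]

lemma mem_bd {X : Finset V} {v : V} : v ∈ bd G X ↔ v ∉ X ∧ ∃ x ∈ X, G.Adj x v := by simp [bd]

lemma mem_far {X : Finset V} {v : V} : v ∈ far G X ↔ v ∉ X ∧ ¬ ∃ x ∈ X, G.Adj x v := by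
  simp only [far, mem_filter, mem_univ, true_and]

lemma far_bound (hG : G.Connected) (hdeg : ∀ v p q : V, ∃ u, G.Adj v u ∧ u ≠ p ∧ u ≠ q)
    {X : Finset V} (hX : Conn G X) :
    2 * (far G X).card ≤ ∑ w ∈ bd G X, (fam G (far G X) w).card := by
  obtain ⟨x0, hx0⟩ := hX.1
  refine closed_bound hG hdeg (bd G X) x0 _ (far G X) rfl (fun v hv u hadj => ?_)
    (fun h => (mem_far.1 h).1 hx0)
  have huX : u ∉ X := fun h => (mem_far.1 hv).2 ⟨u, h, hadj.symm⟩
  by_cases h : ∃ x ∈ X, G.Adj x u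
  · exact Or.inr (mem_bd.2 ⟨huX, h⟩)
  · exact Or.inl (mem_far.2 ⟨huX, h⟩)

lemma card_split (X : Finset V) :
    X.card + (bd G X).card + (far G X).card = Fintype.card V := by
  have h1 := card_filter_add_card_filter_not (s := Xᶜ) (fun v => ∃ x ∈ X, G.Adj x v)
  have h2 : Xᶜ.filter (fun v => ∃ x ∈ X, G.Adj x v) = bd G X := by
    ext v; rw [mem_bd, mem_filter, mem_compl]
  have h3 : Xᶜ.filter (fun v => ¬ ∃ x ∈ X, G.Adj x v) = far G X := by
    ext v; rw [mem_far, mem_filter, mem_compl]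
  rw [h2, h3, card_compl] at h1
  have := card_le_univ X
  omega

lemma bd_le_ncv : ∑ X ∈ CC G, (bd G X).card ≤ ∑ U ∈ CC G, (ncv G U).card := by
  rw [← card_sigma, ← card_sigma]
  refine card_le_card_of_injOn (fun p => ⟨insert p.2 p.1, p.2⟩) ?_ ?_
  · rintro ⟨X, v⟩ hp
    obtain ⟨h1, h2⟩ := mem_sigma.1 (mem_coe.1 hp)
    obtain ⟨hv, x, hx, hadj⟩ := mem_bd.1 h2
    have hX := mem_CC.1 h1
    refine mem_coe.2 (mem_sigma.2 ⟨mem_CC.2 (hX.ins hx hadj), ?_⟩)
    refine mem_filter.2 ⟨mem_insert_self _ _, ?_⟩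
    dsimp only at hv ⊢
    rw [erase_insert hv]
    exact hX
  · rintro ⟨X, v⟩ hp ⟨X', v'⟩ hp' h
    obtain ⟨-, h2⟩ := mem_sigma.1 (mem_coe.1 hp)
    obtain ⟨-, h2'⟩ := mem_sigma.1 (mem_coe.1 hp')
    have hv := (mem_bd.1 h2).1
    have hv' := (mem_bd.1 h2').1
    simp only [Sigma.mk.injEq, heq_eq_eq] at h hv hv' ⊢
    obtain ⟨e1, rfl⟩ := h
    refine ⟨?_, rfl⟩
    rw [← erase_insert hv, e1, erase_insert hv']

/-- no common vertex, no edge -/
def Sep (G : SimpleGraph V) (A B : Finset V) : Prop := ∀ a ∈ A, ∀ b ∈ B, a ≠ b ∧ ¬ G.Adj a b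

omit [Fintype V] in
lemma Sep.symm {A B : Finset V} (h : Sep G A B) : Sep G B A :=
  fun b hb a ha => ⟨(h a ha b hb).1.symm, fun e => (h a ha b hb).2 e.symm⟩

omit [Fintype V] in
lemma Sep.sub {A B Z : Finset V} (h : Sep G A B) (hZ : Conn G Z) (hs : Z ⊆ A ∪ B) {x : V}
    (hxZ : x ∈ Z) (hxA : x ∈ A) : Z ⊆ A := by
  intro y hy
  by_contra hcon
  obtain ⟨z, -, u, hu, hz, huA, hadj⟩ := (hZ.2 x hxZ y hy).exit (fun v => v ∈ A) hxA hcon
  exact (h z hz u ((mem_union.1 (hs hu)).resolve_left huA)).2 hadj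

omit [Fintype V] in
lemma Sep.uniq {X Y X' Y' : Finset V} (h : Sep G X Y) (h' : Sep G X' Y') (hX : Conn G X)
    (hX' : Conn G X') (e : X ∪ Y = X' ∪ Y') {x : V} (hx : x ∈ X) (hx' : x ∈ X') :
    X' = X ∧ Y' = Y := by
  have e1 : X' = X := Subset.antisymm (h.sub hX' (e ▸ subset_union_left) hx' hx)
    (h'.sub hX (e ▸ subset_union_left) hx hx')
  subst e1
  refine ⟨rfl, ?_⟩
  ext v
  constructor
  · intro hv
    have : v ∈ X' ∪ Y := e ▸ mem_union_right _ hv
    exact (mem_union.1 this).resolve_left fun hh => (h' v hh v hv).1 rfl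
  · intro hv
    have : v ∈ X' ∪ Y' := e ▸ mem_union_right _ hv
    exact (mem_union.1 this).resolve_left fun hh => (h v hh v hv).1 rfl

lemma triple_facts {X Y : Finset V} {w : V} (hw : w ∈ bd G X) (hY : Y ∈ fam G (far G X) w) :
    Sep G X Y ∧ w ∉ X ∪ Y := by
  obtain ⟨hwX, hw2⟩ := mem_bd.1 hw
  obtain ⟨h1, -, -⟩ := mem_fam.1 hY
  refine ⟨fun a ha b hb => ⟨?_, fun e => (mem_far.1 (h1 hb)).2 ⟨a, ha, e⟩⟩, fun h => ?_⟩
  · rintro rfl
    exact (mem_far.1 (h1 hb)).1 ha
  · rcases mem_union.1 h with h | h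
    · exact hwX h
    · exact (mem_far.1 (h1 h)).2 hw2

lemma triples_le : ∑ X ∈ CC G, ∑ w ∈ bd G X, (fam G (far G X) w).card ≤
    2 * ∑ U ∈ CC G, (cutv G U).card := by
  simp only [← card_sigma]
  refine card_le_mul_card_image_of_maps_to
    (f := fun p : (_ : Finset V) × (_ : V) × Finset V =>
      (⟨insert p.2.1 (p.1 ∪ p.2.2), p.2.1⟩ : (_ : Finset V) × V)) ?_ 2 ?_
  · rintro ⟨X, w, Y⟩ hp
    obtain ⟨h1, h2⟩ := mem_sigma.1 hp
    obtain ⟨h2, h3⟩ := mem_sigma.1 h2
    dsimp only at h1 h2 h3 ⊢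
    obtain ⟨hs, hw⟩ := triple_facts h2 h3
    have hX := mem_CC.1 h1
    obtain ⟨-, x, hx, hadj⟩ := mem_bd.1 h2
    obtain ⟨-, hY, y, hy, hadj'⟩ := mem_fam.1 h3
    refine mem_sigma.2 ⟨mem_CC.2 ?_, mem_filter.2 ⟨mem_insert_self _ _, ?_⟩⟩
    · have := (hX.ins hx hadj).union (hY.ins hy hadj'.symm) (mem_insert_self _ _)
        (mem_insert_self _ _)
      rwa [← insert_union_distrib] at this
    · dsimp only
      rw [erase_insert hw]
      refine ⟨fun hc => ?_, ⟨x, mem_union_left _ hx⟩⟩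
      have := hs.sub hc Subset.rfl (mem_union_left _ hx) hx (mem_union_right _ hy)
      exact (hs y this y hy).1 rfl
  · intro b _
    rcases (filter (fun a : (_ : Finset V) × (_ : V) × Finset V =>
      (⟨insert a.2.1 (a.1 ∪ a.2.2), a.2.1⟩ : (_ : Finset V) × V) = b)
        ((CC G).sigma fun X => (bd G X).sigma fun w => fam G (far G X) w)).eq_empty_or_nonempty
        with h | ⟨⟨X, w, Y⟩, hp⟩
    · rw [h]; simp
    · refine le_trans (card_le_card (t := {⟨X, w, Y⟩, ⟨Y, w, X⟩}) ?_) card_le_two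
      rintro ⟨X', w', Y'⟩ hp'
      obtain ⟨hp, e⟩ := mem_filter.1 hp
      obtain ⟨hp', e'⟩ := mem_filter.1 hp'
      obtain ⟨h1, h2⟩ := mem_sigma.1 hp
      obtain ⟨h2, h3⟩ := mem_sigma.1 h2
      obtain ⟨h1', h2'⟩ := mem_sigma.1 hp'
      obtain ⟨h2', h3'⟩ := mem_sigma.1 h2'
      dsimp only at h1 h2 h3 h1' h2' h3' e e'
      rw [← e'] at e
      simp only [Sigma.mk.injEq, heq_eq_eq] at e
      obtain ⟨e1, rfl⟩ := e
      obtain ⟨hs, hw⟩ := triple_facts h2 h3
      obtain ⟨hs', hw'⟩ := triple_facts h2' h3'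
      have e2 : X ∪ Y = X' ∪ Y' := by rw [← erase_insert hw, e1, erase_insert hw']
      have hX := mem_CC.1 h1
      obtain ⟨x, hx⟩ := hX.1
      have hx' : x ∈ X' ∪ Y' := e2 ▸ mem_union_left _ hx
      rcases mem_union.1 hx' with h | h
      · obtain ⟨rfl, rfl⟩ := hs.uniq hs' hX (mem_CC.1 h1') e2 hx h
        simp
      · obtain ⟨rfl, rfl⟩ := hs.uniq hs'.symm hX (mem_fam.1 h3').2.1
          (e2.trans (union_comm _ _)) hx h
        simp

theorem main (hG : G.Connected) (hdeg : ∀ v p q : V, ∃ u, G.Adj v u ∧ u ≠ p ∧ u ≠ q) :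
    (CC G).card * Fintype.card V < 2 * ∑ U ∈ CC G, U.card := by
  have h1 : ∑ X ∈ CC G, 2 * (far G X).card ≤ _ :=
    sum_le_sum fun X hX => far_bound hG hdeg (mem_CC.1 hX)
  rw [← mul_sum] at h1
  have h2 := triples_le (G := G)
  have h3 := bd_le_ncv (G := G)
  have h4 : ∑ U ∈ CC G, ((ncv G U).card + (cutv G U).card) < ∑ U ∈ CC G, U.card := by
    apply sum_lt_sum
    · intro U _
      rw [← card_union_of_disjoint]
      · exact card_le_card (union_subset (filter_subset _ _) (filter_subset _ _))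
      · exact disjoint_left.2 fun v h h' => (mem_filter.1 h').2.1 (mem_filter.1 h).2
    · obtain ⟨v⟩ := hG.nonempty
      refine ⟨{v}, mem_CC.2 (conn_singleton v), ?_⟩
      have e1 : ncv G {v} = ∅ := by
        refine filter_eq_empty_iff.2 fun u hu hc => ?_
        rw [mem_singleton.1 hu, erase_singleton] at hc
        exact not_nonempty_empty hc.1
      have e2 : cutv G {v} = ∅ := by
        refine filter_eq_empty_iff.2 fun u hu hc => ?_
        rw [mem_singleton.1 hu, erase_singleton] at hc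
        exact not_nonempty_empty hc.2
      rw [e1, e2]; simp
  rw [sum_add_distrib] at h4
  have h5 : ∑ X ∈ CC G, (X.card + (bd G X).card + (far G X).card) =
      (CC G).card * Fintype.card V := by
    rw [sum_congr rfl fun X _ => card_split X]
    simp
  rw [sum_add_distrib, sum_add_distrib] at h5
  omega

omit [Fintype V] in
lemma conn_iff (S : Finset V) : (G.induce (S : Set V)).Connected ↔ Conn G S := by
  rw [SimpleGraph.connected_iff]
  constructor
  · rintro ⟨h, ⟨a0, ha0⟩⟩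
    refine ⟨⟨a0, ha0⟩, fun a ha b hb => ?_⟩
    have key : ∀ p q : (S : Set V), Relation.ReflTransGen (G.induce (S : Set V)).Adj p q →
        Rch G S p q := by
      intro p q hpq
      induction hpq with
      | refl => exact Rch.refl _ _
      | @tail c d _ hcd ih => exact ih.trans (Rch.single hcd c.2 d.2)
    exact key ⟨a, ha⟩ ⟨b, hb⟩ ((SimpleGraph.reachable_iff_reflTransGen _ _).1 (h _ _))
  · rintro ⟨⟨a0, ha0⟩, h⟩
    refine ⟨fun p q => ?_, ⟨⟨a0, ha0⟩⟩⟩
    have key : ∀ b, Rch G S p b → ∀ hb : b ∈ (S : Set V),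
        (G.induce (S : Set V)).Reachable p ⟨b, hb⟩ := by
      intro b hb
      induction hb with
      | refl => intro _; exact SimpleGraph.Reachable.refl _
      | @tail c d _ hcd ih =>
        intro hd
        exact (ih hcd.2.1).trans (SimpleGraph.Adj.reachable (G := G.induce (S : Set V))
          (u := ⟨c, hcd.2.1⟩) (v := ⟨d, hd⟩) hcd.1)
    exact key q (h p p.2 q q.2) q.2

end Pool.Agent.H295Z.CD
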