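import Mathlib

/-!
# A 12-vertex gadget that is `f`-choosable

Five-cycle `v1 v2 v3 v4 v5`, a path `v1 x y v3`, and a Moser spindle with apex `t` adjacent to `y`
whose diamonds contain `v1` and `v3`.
-/

set_option autoImplicit false

namespace Pool.Agent.H295Z.SF

open Finset

/-- the pair of colours of `v1`, `v3` does not extend to the five-cycle -/
def K (L2 L4 L5 : Finset ℕ) (c1 c3 : ℕ) : Prop :=
  ¬ ((∃ z ∈ L2, z ≠ c1 ∧ z ≠ c3) ∧ ∃ z4 ∈ L4, ∃ z5 ∈ L5, z4 ≠ c3 ∧ z4 ≠ z5 ∧ z5 ≠ c1)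

/-- `y` is a possible colour on the path -/
def Y (Lx Ly : Finset ℕ) (c1 c3 y : ℕ) : Prop :=
  y ∈ Ly ∧ y ≠ c3 ∧ ∃ x ∈ Lx, x ≠ c1 ∧ x ≠ y

lemma two_of_three {L : Finset ℕ} (h : L.card = 3) (r : ℕ) :
    ∃ p ∈ L, ∃ q ∈ L, p ≠ q ∧ p ≠ r ∧ q ≠ r := by
  obtain ⟨a, b, c, h1, h2, h3, rfl⟩ := card_eq_three.1 h
  simp only [mem_insert, mem_singleton, exists_eq_or_imp, exists_eq_left]
  grind

lemma third {L : Finset ℕ} (h : L.card = 3) (p q : ℕ) : ∃ a ∈ L, a ≠ p ∧ a ≠ q := by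
  obtain ⟨a, b, c, h1, h2, h3, rfl⟩ := card_eq_three.1 h
  simp only [mem_insert, mem_singleton, exists_eq_or_imp, exists_eq_left]
  grind

lemma only_three {L : Finset ℕ} (h : L.card = 3) {p q r s : ℕ} (hp : p ∈ L) (hq : q ∈ L)
    (hr : r ∈ L) (hs : s ∈ L) (h1 : p ≠ q) (h2 : p ≠ r) (h3 : q ≠ r) :
    s = p ∨ s = q ∨ s = r := by
  obtain ⟨a, b, c, -, -, -, rfl⟩ := card_eq_three.1 h
  simp only [mem_insert, mem_singleton] at hp hq hr hs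
  grind

lemma other {L : Finset ℕ} (h : L.card = 2) (p : ℕ) : ∃ a ∈ L, a ≠ p := by
  obtain ⟨a, b, h1, rfl⟩ := card_eq_two.1 h
  simp only [mem_insert, mem_singleton, exists_eq_or_imp, exists_eq_left]
  grind

lemma only_two {L : Finset ℕ} (h : L.card = 2) {p q s : ℕ} (hp : p ∈ L) (hq : q ∈ L)
    (hs : s ∈ L) (h1 : p ≠ q) : s = p ∨ s = q := by
  obtain ⟨a, b, -, rfl⟩ := card_eq_two.1 h
  simp only [mem_insert, mem_singleton] at hp hq hs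
  grind

lemma fourth {L : Finset ℕ} (h : L.card = 4) (p q r : ℕ) : ∃ a ∈ L, a ≠ p ∧ a ≠ q ∧ a ≠ r := by
  by_contra hc
  push Not at hc
  have : L ⊆ {p, q, r} := by
    intro a ha
    simp only [mem_insert, mem_singleton]
    by_cases e1 : a = p
    · exact Or.inl e1
    by_cases e2 : a = q
    · exact Or.inr (Or.inl e2)
    exact Or.inr (Or.inr (hc a ha e1 e2))
  have := (card_le_card this).trans card_le_three
  omega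

/-- a path with two lists of size two blocks one pair or two diagonal pairs -/
lemma path_kill {P Q : Finset ℕ} (hP : P.card = 2) (hQ : Q.card = 2) :
    ∃ u v u' v' : ℕ, ((u' = u ∧ v' = v) ∨ (u = v ∧ u' = v')) ∧ ∀ c1 c3 : ℕ,
      (∃ z4 ∈ Q, ∃ z5 ∈ P, z4 ≠ c3 ∧ z4 ≠ z5 ∧ z5 ≠ c1) ∨ (c1 = u ∧ c3 = v) ∨
        (c1 = u' ∧ c3 = v') := by
  obtain ⟨a, b, h1, rfl⟩ := card_eq_two.1 hP
  obtain ⟨c, d, h2, rfl⟩ := card_eq_two.1 hQ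
  simp only [mem_insert, mem_singleton, exists_eq_or_imp, exists_eq_left]
  by_cases e1 : a = c
  · by_cases e2 : b = d
    · exact ⟨a, a, b, b, by simp, by grind⟩
    · exact ⟨b, d, b, d, by simp, by grind⟩
  by_cases e3 : a = d
  · by_cases e2 : b = c
    · exact ⟨a, a, b, b, by simp, by grind⟩
    · exact ⟨b, c, b, c, by simp, by grind⟩
  by_cases e4 : b = c
  · exact ⟨a, d, a, d, by simp, by grind⟩
  · exact ⟨a, c, a, c, by simp, by grind⟩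

lemma K_shape {L2 L4 L5 : Finset ℕ} (h2 : L2.card = 2) (h4 : L4.card = 2) (h5 : L5.card = 2) :
    ∃ a b u v u' v' : ℕ, a ≠ b ∧ ((u' = u ∧ v' = v) ∨ (u = v ∧ u' = v')) ∧ ∀ c1 c3 : ℕ,
      K L2 L4 L5 c1 c3 → (c1 = a ∧ c3 = b) ∨ (c1 = b ∧ c3 = a) ∨ (c1 = u ∧ c3 = v) ∨
        (c1 = u' ∧ c3 = v') := by
  obtain ⟨u, v, u', v', h, h'⟩ := path_kill h5 h4
  obtain ⟨a, b, hab, rfl⟩ := card_eq_two.1 h2
  refine ⟨a, b, u, v, u', v', hab, h, fun c1 c3 hK => ?_⟩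
  unfold K at hK
  simp only [mem_insert, mem_singleton, exists_eq_or_imp, exists_eq_left] at hK
  rcases h' c1 c3 with e | e | e
  · have := fun h0 => hK ⟨h0, e⟩
    grind
  · simp [e]
  · simp [e]

section G1

variable {L1 L3 L2 L4 L5 Lx Ly : Finset ℕ}

lemma T1 (h2 : L2.card = 2) (h4 : L4.card = 2) (h5 : L5.card = 2) (hx : Lx.card = 2)
    (hy : Ly.card = 2) {p q r s : ℕ} (hpq : p ≠ q) (hrs : r ≠ s) (n1 : ¬ (p = r ∧ q = s))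
    (n2 : ¬ (p = s ∧ q = r)) : ∃ c1 c3 y, (c1 = p ∨ c1 = q) ∧ (c3 = r ∨ c3 = s) ∧
      ¬ K L2 L4 L5 c1 c3 ∧ Y Lx Ly c1 c3 y := by
  obtain ⟨a, b, u, v, u', v', hab, h, hK⟩ := K_shape h2 h4 h5
  obtain ⟨w, z, w', z', g, hY⟩ := path_kill hx hy
  by_contra hc
  have key : ∀ c1 c3, (c1 = p ∨ c1 = q) → (c3 = r ∨ c3 = s) →
      ((c1 = a ∧ c3 = b) ∨ (c1 = b ∧ c3 = a) ∨ (c1 = u ∧ c3 = v) ∨ (c1 = u' ∧ c3 = v')) ∨
        (c1 = w ∧ c3 = z) ∨ (c1 = w' ∧ c3 = z') := by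
    intro c1 c3 e1 e3
    rcases hY c1 c3 with ⟨y, hy', x, hx', f1, f2, f3⟩ | e
    · left
      apply hK
      by_contra hk
      exact hc ⟨c1, c3, y, e1, e3, hk, hy', f1, x, hx', f3, f2.symm⟩
    · exact Or.inr e
  have k1 := key p r (Or.inl rfl) (Or.inl rfl)
  have k2 := key p s (Or.inl rfl) (Or.inr rfl)
  have k3 := key q r (Or.inr rfl) (Or.inl rfl)
  have k4 := key q s (Or.inr rfl) (Or.inr rfl)
  clear key hc hK hY h2 h4 h5 hx hy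
  grind (splits := 40)

lemma T2 (h2 : L2.card = 2) (h4 : L4.card = 2) (h5 : L5.card = 2) {p q r c : ℕ} (h1 : p ≠ q)
    (h1' : p ≠ r) (h1'' : q ≠ r) (k1 : K L2 L4 L5 p c) (k2 : K L2 L4 L5 q c)
    (k3 : K L2 L4 L5 r c) : False := by
  obtain ⟨a, b, u, v, u', v', hab, h, hK⟩ := K_shape h2 h4 h5
  have k1 := hK _ _ k1
  have k2 := hK _ _ k2
  have k3 := hK _ _ k3
  clear hK
  grind (splits := 40)

lemma T3 (h2 : L2.card = 2) (h4 : L4.card = 2) (h5 : L5.card = 2) {p q c1 c3 : ℕ} (h1 : p ≠ q)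
    (k1 : K L2 L4 L5 p p) (k2 : K L2 L4 L5 p q) (k3 : K L2 L4 L5 q p) (k4 : K L2 L4 L5 q q)
    (k5 : K L2 L4 L5 c1 c3) : (c1 = p ∨ c1 = q) ∧ (c3 = p ∨ c3 = q) := by
  obtain ⟨a, b, u, v, u', v', hab, h, hK⟩ := K_shape h2 h4 h5
  have k1 := hK _ _ k1
  have k2 := hK _ _ k2
  have k3 := hK _ _ k3
  have k4 := hK _ _ k4
  have k5 := hK _ _ k5
  clear hK
  grind (splits := 40)

/-- a colouring of the first part, recorded by the colours of `v1`, `v3`, `y` -/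
def S (L1 L3 L2 L4 L5 Lx Ly : Finset ℕ) (c1 c3 y : ℕ) : Prop :=
  c1 ∈ L1 ∧ c3 ∈ L3 ∧ ¬ K L2 L4 L5 c1 c3 ∧ Y Lx Ly c1 c3 y

/-- list sizes of the first part -/
def Sz (L1 L3 L2 L4 L5 Lx Ly : Finset ℕ) : Prop :=
  L1.card = 3 ∧ L3.card = 3 ∧ L2.card = 2 ∧ L4.card = 2 ∧ L5.card = 2 ∧ Lx.card = 2 ∧ Ly.card = 2

lemma box (h : Sz L1 L3 L2 L4 L5 Lx Ly) {p q r s : ℕ} (hp : p ∈ L1) (hq : q ∈ L1) (hr : r ∈ L3)
    (hs : s ∈ L3) (hpq : p ≠ q) (hrs : r ≠ s) (n1 : ¬ (p = r ∧ q = s))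
    (n2 : ¬ (p = s ∧ q = r)) : ∃ c1 c3 y, (c1 = p ∨ c1 = q) ∧ (c3 = r ∨ c3 = s) ∧
      S L1 L3 L2 L4 L5 Lx Ly c1 c3 y := by
  obtain ⟨-, -, h2, h4, h5, hx, hy⟩ := h
  obtain ⟨c1, c3, y, e1, e3, hK, hY⟩ := T1 h2 h4 h5 hx hy hpq hrs n1 n2
  refine ⟨c1, c3, y, e1, e3, ?_, ?_, hK, hY⟩
  · rcases e1 with rfl | rfl <;> assumption
  · rcases e3 with rfl | rfl <;> assumption

/-- if every colouring uses `r` on `v1` or `s` on `v3` then the lists are `pqr`, `pqs` -/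
lemma cross (h : Sz L1 L3 L2 L4 L5 Lx Ly) {r s : ℕ}
    (H : ∀ c1 c3 y, S L1 L3 L2 L4 L5 Lx Ly c1 c3 y → c1 = r ∨ c3 = s) :
    ∃ p q, p ≠ q ∧ p ∈ L1 ∧ q ∈ L1 ∧ p ∈ L3 ∧ q ∈ L3 ∧ p ≠ r ∧ q ≠ r ∧ p ≠ s ∧ q ≠ s ∧
      r ∈ L1 ∧ s ∈ L3 := by
  obtain ⟨p, hp, q, hq, hpq, hpr, hqr⟩ := two_of_three h.1 r
  obtain ⟨p', hp', q', hq', hpq', hps, hqs⟩ := two_of_three h.2.1 s
  have key : ∀ a ∈ L1, ∀ b ∈ L1, ∀ c ∈ L3, ∀ d ∈ L3, a ≠ b → c ≠ d → a ≠ r → b ≠ r → c ≠ s →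
      d ≠ s → (a = c ∧ b = d) ∨ (a = d ∧ b = c) := by
    intro a ha b hb c hc d hd h1 h2 h3 h4 h5 h6
    by_contra hcon
    rw [not_or] at hcon
    obtain ⟨c1, c3, y, e1, e3, hS⟩ := box h ha hb hc hd h1 h2 hcon.1 hcon.2
    have := H _ _ _ hS
    grind
  have k1 := key p hp q hq p' hp' q' hq' hpq hpq' hpr hqr hps hqs
  obtain ⟨a, ha, hap, haq⟩ := third h.1 p q
  obtain ⟨b, hb, hbp, hbq⟩ := third h.2.1 p' q'
  have k2 := key p hp a ha p' hp' q' hq' hap.symm hpq' hpr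
  have k3 := key p hp q hq p' hp' b hb hpq hbp.symm hpr hqr hps
  have e1 : a = r := by
    by_contra e
    have := k2 e hps hqs
    grind
  have e2 : b = s := by
    by_contra e
    have := k3 e
    grind
  subst e1 e2
  rcases k1 with ⟨rfl, rfl⟩ | ⟨rfl, rfl⟩
  · exact ⟨p, q, hpq, hp, hq, hp', hq', hpr, hqr, hps, hqs, ha, hb⟩
  · exact ⟨p, q, hpq, hp, hq, hq', hp', hpr, hqr, hqs, hps, ha, hb⟩

lemma lemX (h : Sz L1 L3 L2 L4 L5 Lx Ly) {B : Finset ℕ} (hB : B.card = 3) {d : ℕ}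
    (H : ∀ c1 c3 y, S L1 L3 L2 L4 L5 Lx Ly c1 c3 y → y = d ∧ c1 ∈ B ∧ c3 ∈ B) : False := by
  obtain ⟨h1, h3, h2, h4, h5, hx, hy⟩ := id h
  obtain ⟨e, he, hed⟩ := other hy d
  obtain ⟨r, hr, hre⟩ := other hx e
  have hK : ∀ c1 ∈ L1, ∀ c3 ∈ L3, c1 ≠ r → c3 ≠ e → K L2 L4 L5 c1 c3 := by
    intro c1 g1 c3 g3 n1 n3
    by_contra hk
    exact hed (H c1 c3 e ⟨g1, g3, hk, he, n3.symm, r, hr, n1.symm, hre⟩).1
  obtain ⟨p, q, hpq, p1, q1, p3, q3, pr, qr, pe, qe, r1, e3⟩ := cross h (r := r) (s := e)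
    (fun c1 c3 y hS => by
      by_contra hc
      rw [not_or] at hc
      exact hS.2.2.1 (hK c1 hS.1 c3 hS.2.1 hc.1 hc.2))
  have hT := fun c1 c3 => T3 (c1 := c1) (c3 := c3) h2 h4 h5 hpq (hK p p1 p p3 pr pe)
    (hK p p1 q q3 pr qe) (hK q q1 p p3 qr pe) (hK q q1 q q3 qr qe)
  have n1 : ∀ c3, ¬ K L2 L4 L5 r c3 := fun c3 hk => by
    have := (hT _ _ hk).1
    grind
  have n2 : ∀ c1, ¬ K L2 L4 L5 c1 e := fun c1 hk => by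
    have := (hT _ _ hk).2
    grind
  obtain ⟨x, hx', hxr⟩ := other hx r
  have hxe : x = e := by
    by_contra hc
    exact hed (H r p e ⟨r1, p3, n1 p, he, pe.symm, x, hx', hxr, hc⟩).1
  subst hxe
  obtain ⟨d', hd', hde⟩ := other hy x
  have m1 := H p x d' ⟨p1, e3, n2 p, hd', hde, x, hx', pe.symm, hde.symm⟩
  have m2 := H q x d' ⟨q1, e3, n2 q, hd', hde, x, hx', qe.symm, hde.symm⟩
  have m3 := H r x d' ⟨r1, e3, n2 r, hd', hde, x, hx', hxr, hde.symm⟩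
  have := only_three hB m1.2.1 m2.2.1 m3.2.1 m1.2.2 hpq pr qr
  grind

lemma lemA (h : Sz L1 L3 L2 L4 L5 Lx Ly) {d e : ℕ} (hde : d ≠ e)
    (H : ∀ c1 c3 y, S L1 L3 L2 L4 L5 Lx Ly c1 c3 y →
      c1 ≠ d ∧ c1 ≠ e ∧ (c3 = d ∨ y = d) ∧ (c3 = e ∨ y = e)) : False := by
  obtain ⟨h1, h3, h2, h4, h5, hx, hy⟩ := id h
  obtain ⟨b, hb, hbd, hbe⟩ := third h3 d e
  obtain ⟨a, ha, had, hae⟩ := third h1 d e
  have dead : ∀ c3, c3 ≠ d → c3 ≠ e → ∀ c1 y, ¬ S L1 L3 L2 L4 L5 Lx Ly c1 c3 y := by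
    intro c3 n1 n2 c1 y hS
    have := H _ _ _ hS
    grind
  obtain ⟨p, hp, q, hq, hpq, hpb, hqb⟩ := two_of_three h1 b
  have k : ∀ z ∈ L3, z ≠ b → ∃ c1, S L1 L3 L2 L4 L5 Lx Ly c1 z d ∧ z = e ∨
      S L1 L3 L2 L4 L5 Lx Ly c1 z e ∧ z = d := by
    intro z hz hzb
    obtain ⟨c1, c3, y, -, e3, hS⟩ := box h hp hq hb hz hpq hzb.symm (fun g => hpb g.1)
      (fun g => hqb g.2)
    have := H _ _ _ hS
    have g1 : c3 = z := by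
      rcases e3 with rfl | rfl
      · exact absurd hS (dead _ hbd hbe _ _)
      · rfl
    subst g1
    refine ⟨c1, ?_⟩
    by_cases g : c3 = e
    · have : y = d := by grind
      exact Or.inl ⟨this ▸ hS, g⟩
    · have g2 : y = e := by grind
      have g3 : c3 = d := by grind
      exact Or.inr ⟨g2 ▸ hS, g3⟩
  obtain ⟨r, hr, s, hs, hrs, hrb, hsb⟩ := two_of_three h3 b
  obtain ⟨c, k1⟩ := k r hr hrb
  obtain ⟨c', k2⟩ := k s hs hsb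
  have hdy : d ∈ Ly ∧ e ∈ Ly := by
    rcases k1 with ⟨k1, rfl⟩ | ⟨k1, rfl⟩ <;> rcases k2 with ⟨k2, rfl⟩ | ⟨k2, rfl⟩
    · exact absurd rfl hrs
    · exact ⟨k1.2.2.2.1, k2.2.2.2.1⟩
    · exact ⟨k2.2.2.2.1, k1.2.2.2.1⟩
    · exact absurd rfl hrs
  have hK : ∀ c ∈ L1, K L2 L4 L5 c b := by
    intro c hc
    by_contra hk
    obtain ⟨x, hx', hxc⟩ := other hx c
    by_cases g : x = d
    · exact dead b hbd hbe c e ⟨hc, hb, hk, hdy.2, hbe.symm, x, hx', hxc, g ▸ hde⟩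
    · exact dead b hbd hbe c d ⟨hc, hb, hk, hdy.1, hbd.symm, x, hx', hxc, g⟩
  obtain ⟨o, ho, hop, hoq⟩ := third h1 p q
  exact T2 h2 h4 h5 hpq hop.symm hoq.symm (hK p hp) (hK q hq) (hK o ho)

lemma lemB (h : Sz L1 L3 L2 L4 L5 Lx Ly) {d e : ℕ} (hde : d ≠ e)
    (H : ∀ c1 c3 y, S L1 L3 L2 L4 L5 Lx Ly c1 c3 y →
      c3 ≠ d ∧ c3 ≠ e ∧ (c1 = d ∨ y = d) ∧ (c1 = e ∨ y = e)) : False := by
  obtain ⟨h1, h3, h2, h4, h5, hx, hy⟩ := id h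
  obtain ⟨a, ha, had, hae⟩ := third h1 d e
  obtain ⟨p, hp, q, hq, hpq, hpa, hqa⟩ := two_of_three h3 a
  have k : ∀ z ∈ L1, z ≠ a → ∃ c3, S L1 L3 L2 L4 L5 Lx Ly z c3 d ∧ z = e ∨
      S L1 L3 L2 L4 L5 Lx Ly z c3 e ∧ z = d := by
    intro z hz hza
    obtain ⟨c1, c3, y, e1, -, hS⟩ := box h ha hz hp hq hza.symm hpq (fun g => hpa g.1.symm)
      (fun g => hqa g.1.symm)
    have := H _ _ _ hS
    have g1 : c1 = z := by grind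
    subst g1
    refine ⟨c3, ?_⟩
    by_cases g : c1 = e
    · have : y = d := by grind
      exact Or.inl ⟨this ▸ hS, g⟩
    · have g2 : y = e := by grind
      have g3 : c1 = d := by grind
      exact Or.inr ⟨g2 ▸ hS, g3⟩
  obtain ⟨r, hr, s, hs, hrs, hra, hsa⟩ := two_of_three h1 a
  obtain ⟨c, k1⟩ := k r hr hra
  obtain ⟨c', k2⟩ := k s hs hsa
  obtain ⟨x, hx', hxd⟩ := other hx d
  have fin : ∀ c c', S L1 L3 L2 L4 L5 Lx Ly e c d → S L1 L3 L2 L4 L5 Lx Ly d c' e → False := by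
    intro c c' s1 s2
    have g1 := H _ _ _ s2
    have := H d c' d ⟨s2.1, s2.2.1, s2.2.2.1, s1.2.2.2.1, g1.1.symm, x, hx', hxd, hxd⟩
    grind
  rcases k1 with ⟨k1, rfl⟩ | ⟨k1, rfl⟩ <;> rcases k2 with ⟨k2, rfl⟩ | ⟨k2, rfl⟩
  · exact hrs rfl
  · exact fin _ _ k1 k2
  · exact fin _ _ k2 k1
  · exact hrs rfl

lemma lemC (h : Sz L1 L3 L2 L4 L5 Lx Ly) {d e : ℕ} (hde : d ≠ e)
    (H : ∀ c1 c3 y, S L1 L3 L2 L4 L5 Lx Ly c1 c3 y →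
      (c3 = d ∨ y = d) ∧ (c1 = e ∨ y = e)) : False := by
  obtain ⟨h1, h3, h2, h4, h5, hx, hy⟩ := id h
  have H' : ∀ c1 c3 y, S L1 L3 L2 L4 L5 Lx Ly c1 c3 y → c1 = e ∨ c3 = d := by
    intro c1 c3 y hS
    have := H _ _ _ hS
    grind
  obtain ⟨p, q, hpq, p1, q1, p3, q3, pe, qe, pd, qd, e1, d3⟩ := cross h H'
  obtain ⟨c1, c3, y, g1, g3, hS⟩ := box h e1 p1 p3 q3 pe.symm hpq (fun g => pe g.1.symm)
    (fun g => qe g.1.symm)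
  obtain ⟨c1', c3', y', g1', g3', hS'⟩ := box h p1 q1 p3 d3 hpq pd (fun g => qd g.2)
    (fun g => pd g.1)
  have a1 := H _ _ _ hS
  have a2 := H' _ _ _ hS
  have a3 := H _ _ _ hS'
  have b1 : c1 = e := by grind
  have b2 : y' = e := by grind
  subst b1 b2
  obtain ⟨x, hx', hxe⟩ := other hx y'
  have := H y' c3 y' ⟨hS.1, hS.2.1, hS.2.2.1, hS'.2.2.2.1, by grind, x, hx', hxe, hxe⟩
  grind

lemma core (h : Sz L1 L3 L2 L4 L5 Lx Ly) {Lt B E : Finset ℕ} (ht : Lt.card = 4)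
    (hB : B.card = 3) (hE : E.card = 3) : ∃ t ∈ Lt, ∃ c1 c3 y, S L1 L3 L2 L4 L5 Lx Ly c1 c3 y ∧
      t ≠ c1 ∧ t ≠ c3 ∧ t ≠ y ∧ ¬ (t ∈ B ∧ t ∈ E ∧ c1 ∈ B ∧ c3 ∈ E) := by
  by_contra hc
  have H : ∀ t ∈ Lt, ∀ c1 c3 y, S L1 L3 L2 L4 L5 Lx Ly c1 c3 y → t ≠ c1 → t ≠ c3 → t ≠ y →
      t ∈ B ∧ t ∈ E ∧ c1 ∈ B ∧ c3 ∈ E := by
    intro t g c1 c3 y hS n1 n2 n3
    by_contra g'
    exact hc ⟨t, g, c1, c3, y, hS, n1, n2, n3, g'⟩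
  have H1 : ∀ c1 c3 y, S L1 L3 L2 L4 L5 Lx Ly c1 c3 y → c1 ∈ B ∧ c3 ∈ E := by
    intro c1 c3 y hS
    obtain ⟨t, g, n1, n2, n3⟩ := fourth ht c1 c3 y
    exact (H t g c1 c3 y hS n1 n2 n3).2.2
  have H2 : ∀ t ∈ Lt, ¬ (t ∈ B ∧ t ∈ E) → ∀ c1 c3 y, S L1 L3 L2 L4 L5 Lx Ly c1 c3 y →
      t = c1 ∨ t = c3 ∨ t = y := by
    intro t g g' c1 c3 y hS
    by_contra hcon
    push Not at hcon
    have := H t g c1 c3 y hS hcon.1 hcon.2.1 hcon.2.2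
    exact g' ⟨this.1, this.2.1⟩
  by_cases e : B = E
  · subst e
    obtain ⟨d, hd, hdB⟩ := exists_mem_notMem_of_card_lt_card (s := B) (t := Lt) (by omega)
    refine lemX h hB (d := d) fun c1 c3 y hS => ?_
    have a1 := H1 _ _ _ hS
    have a2 := H2 d hd (fun g => hdB g.1) _ _ _ hS
    grind
  · have hI : (B ∩ E).card ≤ 2 := by
      by_contra g
      have e1 : B ∩ E = B := eq_of_subset_of_card_le inter_subset_left (by omega)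
      have e2 : B ∩ E = E := eq_of_subset_of_card_le inter_subset_right (by omega)
      exact e (e1.symm.trans e2)
    have hD : 1 < (Lt \ (B ∩ E)).card := by
      have := le_card_sdiff (B ∩ E) Lt
      omega
    obtain ⟨d, hd, d', hd', hne⟩ := one_lt_card.1 hD
    rw [mem_sdiff, mem_inter] at hd hd'
    have a1 := H2 d hd.1 hd.2
    have a2 := H2 d' hd'.1 hd'.2
    by_cases b1 : d ∈ B <;> by_cases b2 : d' ∈ B
    · refine lemB h hne fun c1 c3 y hS => ?_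
      have := a1 _ _ _ hS
      have := a2 _ _ _ hS
      have := H1 _ _ _ hS
      grind
    · refine lemC h hne.symm fun c1 c3 y hS => ?_
      have := a1 _ _ _ hS
      have := a2 _ _ _ hS
      have := H1 _ _ _ hS
      grind
    · refine lemC h hne fun c1 c3 y hS => ?_
      have := a1 _ _ _ hS
      have := a2 _ _ _ hS
      have := H1 _ _ _ hS
      grind
    · refine lemA h hne fun c1 c3 y hS => ?_
      have := a1 _ _ _ hS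
      have := a2 _ _ _ hS
      have := H1 _ _ _ hS
      grind

end G1

lemma side_one {B C : Finset ℕ} (hB : B.card = 3) (hC : C.card = 3) (t c1 : ℕ) :
    ∃ b ∈ B, ∃ c ∈ C, b ≠ t ∧ b ≠ c1 ∧ c ≠ c1 ∧ c ≠ b := by
  obtain ⟨b, hb, h1, h2⟩ := third hB t c1
  obtain ⟨c, hc, h3, h4⟩ := third hC c1 b
  exact ⟨b, hb, c, hc, h1, h2, h3, h4⟩

lemma side_two {B C : Finset ℕ} (hB : B.card = 3) (hC : C.card = 3) {t c1 : ℕ}
    (h : ¬ (t ∈ B ∧ c1 ∈ B)) (g : ℕ) :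
    ∃ b ∈ B, ∃ c ∈ C, b ≠ t ∧ b ≠ c1 ∧ c ≠ c1 ∧ c ≠ b ∧ c ≠ g := by
  obtain ⟨c, hc, h3, h4⟩ := third hC c1 g
  by_cases e : t ∈ B
  · obtain ⟨b, hb, h1, h2⟩ := third hB t c
    exact ⟨b, hb, c, hc, h1, fun e' => h ⟨e, e' ▸ hb⟩, h3, h2.symm, h4⟩
  · obtain ⟨b, hb, h1, h2⟩ := third hB c1 c
    exact ⟨b, hb, c, hc, fun e' => e (e' ▸ hb), h1, h3, h2.symm, h4⟩

lemma moser {B C E F : Finset ℕ} (hB : B.card = 3) (hC : C.card = 3) (hE : E.card = 3)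
    (hF : F.card = 3) {t c1 c3 : ℕ} (h : ¬ (t ∈ B ∧ t ∈ E ∧ c1 ∈ B ∧ c3 ∈ E)) :
    ∃ b ∈ B, ∃ c ∈ C, ∃ e ∈ E, ∃ f ∈ F, (b ≠ t ∧ b ≠ c1 ∧ c ≠ c1 ∧ c ≠ b) ∧
      (e ≠ t ∧ e ≠ c3 ∧ f ≠ c3 ∧ f ≠ e) ∧ c ≠ f := by
  by_cases g : t ∈ B ∧ c1 ∈ B
  · obtain ⟨b, hb, c, hc, h1⟩ := side_one hB hC t c1
    obtain ⟨e, he, f, hf, a1, a2, a3, a4, a5⟩ := side_two hE hF (t := t) (c1 := c3)
      (fun g' => h ⟨g.1, g'.1, g.2, g'.2⟩) c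
    exact ⟨b, hb, c, hc, e, he, f, hf, h1, ⟨a1, a2, a3, a4⟩, a5.symm⟩
  · obtain ⟨e, he, f, hf, h1⟩ := side_one hE hF t c3
    obtain ⟨b, hb, c, hc, a1, a2, a3, a4, a5⟩ := side_two hB hC g f
    exact ⟨b, hb, c, hc, e, he, f, hf, ⟨a1, a2, a3, a4⟩, h1, a5⟩

/-- edges of the gadget; vertices `v1 v2 v3 v4 v5 x y t b c e f` -/
def edges : List (Fin 12 × Fin 12) :=
  [(0, 1), (1, 2), (2, 3), (3, 4), (4, 0), (0, 5), (5, 6), (6, 2), (6, 7), (7, 0), (7, 8), (0, 8),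
    (0, 9), (8, 9), (7, 2), (7, 10), (2, 10), (2, 11), (10, 11), (9, 11)]

/-- list sizes -/
def fs : Fin 12 → ℕ := ![3, 2, 3, 2, 2, 2, 2, 4, 3, 3, 3, 3]

theorem gadget (L : Fin 12 → Finset ℕ) (hL : ∀ v, fs v ≤ (L v).card) :
    ∃ c : Fin 12 → ℕ, (∀ v, c v ∈ L v) ∧ ∀ e ∈ edges, c e.1 ≠ c e.2 := by
  choose M hML hM using fun v => exists_subset_card_eq (hL v)
  obtain ⟨t, ht, c1, c3, y, ⟨g1, g3, hK, hy, y3, x, hx, x1, xy⟩, t1, t3, ty, hn⟩ :=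
    core (L1 := M 0) (L3 := M 2) (L2 := M 1) (L4 := M 3) (L5 := M 4) (Lx := M 5) (Ly := M 6)
      ⟨hM 0, hM 2, hM 1, hM 3, hM 4, hM 5, hM 6⟩ (hM 7) (hM 8) (hM 10)
  obtain ⟨b, hb, c, hc, e, he, f, hf, ⟨a1, a2, a3, a4⟩, ⟨a5, a6, a7, a8⟩, a9⟩ :=
    moser (hM 8) (hM 9) (hM 10) (hM 11) hn
  unfold K at hK
  rw [not_not] at hK
  obtain ⟨⟨z2, h2, b1, b2⟩, z4, h4, z5, h5, b3, b4, b5⟩ := hK
  refine ⟨![c1, z2, c3, z4, z5, x, y, t, b, c, e, f], fun v => hML v ?_, ?_⟩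
  · fin_cases v <;> assumption
  · simp only [edges, List.forall_mem_cons, List.not_mem_nil, IsEmpty.forall_iff, implies_true,
      and_true]
    exact ⟨b1.symm, b2, b3.symm, b4, b5, x1.symm, xy, y3, ty.symm, t1, a1.symm, a2.symm, a3.symm,
      a4.symm, t3, a5.symm, a6.symm, a7.symm, a8.symm, a9⟩

end Pool.Agent.H295Z.SF
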