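import Pool.Agent.H295Z.SFGadget

/-!
# A 4-choosable graph which is not `(73, 18)`-choosable
-/

set_option autoImplicit false

namespace Pool.Agent.H295Z.SF

open Finset

/-- which gadget vertices have colour block `k` in their list -/
def blk (k : ℕ) (v : Fin 12) : Bool :=
  match k with
  | 0 => v ∈ ([0, 2, 8, 9, 10, 11, 7, 6, 5, 1] : List (Fin 12))
  | 1 => v ∈ ([0, 2, 8, 9, 10, 11, 7, 6, 5, 4] : List (Fin 12))
  | 2 => v ∈ ([0, 2, 8, 9, 10, 11, 7, 5, 3] : List (Fin 12))
  | 3 => v ∈ ([0, 2, 8, 9, 10, 11, 7, 5, 1, 3, 4] : List (Fin 12))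
  | 4 => v ∈ ([0, 2, 8, 9, 10, 11, 7, 1, 3, 4] : List (Fin 12))
  | 5 => v ∈ ([0, 2, 8, 9, 10, 11, 7, 1, 3, 4] : List (Fin 12))
  | 6 => v ∈ ([7, 6] : List (Fin 12))
  | 7 => v ∈ ([7, 6] : List (Fin 12))
  | _ => true

/-- weights -/
def wt : Fin 12 → ℕ := ![3, 1, 3, 1, 1, 1, 2, 2, 2, 2, 2, 2]

/-- bound for the weight of an independent set inside a block -/
def bnd (k : ℕ) : ℕ :=
  match k with
  | 0 => 7
  | 1 => 7
  | 2 => 6
  | 3 => 7
  | 4 => 6
  | 5 => 6
  | 6 => 2
  | 7 => 2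
  | _ => 8

/-- the bad lists -/
def L0 (v : Fin 12) : Finset ℕ := (range 73).filter fun c => blk (c / 9) v = true

lemma card_L0 : ∀ v, (L0 v).card = 18 * fs v + 1 := by decide +kernel

lemma indep_aux : ∀ s0 s1 s2 s3 s4 s5 s6 s7 s8 s9 s10 s11 : Bool, ∀ k : Fin 9,
    (∀ e ∈ edges, ¬ (![s0, s1, s2, s3, s4, s5, s6, s7, s8, s9, s10, s11] e.1 = true ∧
      ![s0, s1, s2, s3, s4, s5, s6, s7, s8, s9, s10, s11] e.2 = true)) →
    (∀ v, ![s0, s1, s2, s3, s4, s5, s6, s7, s8, s9, s10, s11] v = true → blk k v = true) →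
    ∑ v, (if ![s0, s1, s2, s3, s4, s5, s6, s7, s8, s9, s10, s11] v = true then wt v else 0) ≤
      bnd k := by decide +kernel

lemma indep_bound (s : Fin 12 → Bool) (k : ℕ) (hk : k < 9)
    (h1 : ∀ e ∈ edges, ¬ (s e.1 = true ∧ s e.2 = true)) (h2 : ∀ v, s v = true → blk k v = true) :
    ∑ v, (if s v = true then wt v else 0) ≤ bnd k := by
  have e : s = ![s 0, s 1, s 2, s 3, s 4, s 5, s 6, s 7, s 8, s 9, s 10, s 11] := by
    funext v; fin_cases v <;> rfl
  rw [e] at h1 h2 ⊢
  exact indep_aux _ _ _ _ _ _ _ _ _ _ _ _ ⟨k, hk⟩ h1 h2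

theorem gadget_bad (ψ : Fin 12 → Finset ℕ) (h1 : ∀ v, ψ v ⊆ L0 v) (h2 : ∀ v, (ψ v).card = 18)
    (h3 : ∀ e ∈ edges, Disjoint (ψ e.1) (ψ e.2)) : False := by
  have a1 : ∀ v, ∑ c ∈ range 73, (if c ∈ ψ v then wt v else 0) = 18 * wt v := by
    intro v
    rw [← sum_filter, filter_mem_eq_inter,
      inter_eq_right.2 ((h1 v).trans (filter_subset _ _)), sum_const, h2, smul_eq_mul]
  have a2 : ∀ c ∈ range 73, ∑ v, (if c ∈ ψ v then wt v else 0) ≤ bnd (c / 9) := by
    intro c hc
    have := indep_bound (fun v => decide (c ∈ ψ v)) (c / 9) (by have := mem_range.1 hc; omega)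
      (fun e he g => disjoint_left.1 (h3 e he) (of_decide_eq_true g.1) (of_decide_eq_true g.2))
      (fun v g => (mem_filter.1 (h1 v (of_decide_eq_true g))).2)
    simpa using this
  have a3 := sum_le_sum a2
  rw [sum_comm, sum_congr rfl fun v _ => a1 v] at a3
  revert a3
  decide +kernel

/-- index set of the copies -/
abbrev Idx : Type := ↥(powersetCard 18 (Ico 100 173)) × ↥(powersetCard 18 (Ico 200 273))

/-- vertex set -/
abbrev VV : Type := Bool ⊕ (Idx × Fin 12)

/-- whether a gadget vertex is joined to the root -/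
def jn (b : Bool) (v : Fin 12) : Prop := if b then fs v ≤ 2 else fs v ≤ 3

/-- generating relation -/
def rel : VV → VV → Prop
  | Sum.inl b, Sum.inr p => jn b p.2
  | Sum.inr p, Sum.inr q => p.1 = q.1 ∧ (p.2, q.2) ∈ edges
  | _, _ => False

/-- the graph -/
def GG : SimpleGraph VV := SimpleGraph.fromRel rel

theorem choosable (L : VV → Finset ℕ) (hL : ∀ v, (L v).card = 4) :
    ∃ c : VV → ℕ, (∀ v, c v ∈ L v) ∧ ∀ u v, GG.Adj u v → c u ≠ c v := by
  classical
  have h0 : ∀ b, ∃ z, z ∈ L (Sum.inl b) := fun b => card_pos.1 (by rw [hL]; norm_num)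
  choose z hz using h0
  have h1 : ∀ i : Idx, ∃ c : Fin 12 → ℕ,
      (∀ v, c v ∈ (L (Sum.inr (i, v))).filter fun a => ∀ b, jn b v → a ≠ z b) ∧
        ∀ e ∈ edges, c e.1 ≠ c e.2 := by
    intro i
    apply gadget
    intro v
    have hv := hL (Sum.inr (i, v))
    have k1 : (L (Sum.inr (i, v))) ⊆ ((L (Sum.inr (i, v))).filter fun a => ∀ b, jn b v → a ≠ z b) ∪
        ((univ.filter fun b => jn b v).image z) := by
      intro a ha
      by_cases g : ∀ b, jn b v → a ≠ z b
      · exact mem_union_left _ (mem_filter.2 ⟨ha, g⟩)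
      · push Not at g
        obtain ⟨b, g1, g2⟩ := g
        exact mem_union_right _ (mem_image.2 ⟨b, mem_filter.2 ⟨mem_univ _, g1⟩, g2.symm⟩)
    have k2 := (card_le_card k1).trans (card_union_le _ _)
    have k3 := card_image_le (s := univ.filter fun b => jn b v) (f := z)
    have k4 : (univ.filter fun b => jn b v).card + fs v ≤ 4 := by
      rw [card_filter, Fintype.sum_bool]
      have : fs v ≤ 4 := by fin_cases v <;> simp [fs]
      simp only [jn, if_true, Bool.false_eq_true, if_false]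
      split_ifs <;> omega
    omega
  choose c hc hc' using h1
  have key : ∀ u v, rel u v →
      Sum.elim z (fun p : Idx × Fin 12 => c p.1 p.2) u ≠
        Sum.elim z (fun p : Idx × Fin 12 => c p.1 p.2) v := by
    rintro (b | ⟨i, v⟩) (b' | ⟨j, v'⟩) h
    · exact h.elim
    · exact ((mem_filter.1 (hc j v')).2 b h).symm
    · exact h.elim
    · obtain ⟨e, h⟩ := h
      dsimp only at e h
      subst e
      exact hc' i _ h
  refine ⟨Sum.elim z (fun p : Idx × Fin 12 => c p.1 p.2), ?_, ?_⟩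
  · rintro (b | ⟨i, v⟩)
    · exact hz b
    · exact (mem_filter.1 (hc i v)).1
  · intro u v h
    rcases ((SimpleGraph.fromRel_adj _ _ _).1 h).2 with h | h
    · exact key u v h
    · exact (key v u h).symm

/-- the bad list assignment -/
def LL : VV → Finset ℕ
  | Sum.inl b => if b then Ico 200 273 else Ico 100 173
  | Sum.inr p => L0 p.2 ∪ ((if fs p.2 ≤ 3 then p.1.1.1 else ∅) ∪
      (if fs p.2 ≤ 2 then p.1.2.1 else ∅))

lemma card_LL (v : VV) : (LL v).card = 73 := by
  rcases v with b | ⟨⟨⟨A, hA⟩, ⟨B, hB⟩⟩, v⟩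
  · cases b <;> simp [LL]
  · obtain ⟨a1, a2⟩ := mem_powersetCard.1 hA
    obtain ⟨b1, b2⟩ := mem_powersetCard.1 hB
    have m0 : ∀ x ∈ L0 v, x < 73 := fun x hx => mem_range.1 (mem_filter.1 hx).1
    have m1 : ∀ x ∈ (if fs v ≤ 3 then A else ∅), 100 ≤ x ∧ x < 173 := by
      intro x hx
      split_ifs at hx
      · exact mem_Ico.1 (a1 hx)
      · simp at hx
    have m2 : ∀ x ∈ (if fs v ≤ 2 then B else ∅), 200 ≤ x := by
      intro x hx
      split_ifs at hx
      · exact (mem_Ico.1 (b1 hx)).1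
      · simp at hx
    simp only [LL]
    rw [card_union_of_disjoint, card_union_of_disjoint, card_L0]
    · have : 2 ≤ fs v ∧ fs v ≤ 4 := by fin_cases v <;> simp [fs]
      split_ifs <;> simp only [a2, b2, card_empty] <;> omega
    · exact disjoint_left.2 fun x h1 h2 => by
        have := m1 x h1
        have := m2 x h2
        omega
    · exact disjoint_left.2 fun x h1 h2 => by
        have := m0 x h1
        rcases mem_union.1 h2 with h | h
        · have := m1 x h
          omega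
        · have := m2 x h
          omega

theorem not_colourable (f : VV → Finset ℕ) (h1 : ∀ v, f v ⊆ LL v ∧ (f v).card = 18)
    (h2 : ∀ u v, GG.Adj u v → Disjoint (f u) (f v)) : False := by
  let i : Idx := (⟨f (Sum.inl false), mem_powersetCard.2 (h1 (Sum.inl false))⟩,
    ⟨f (Sum.inl true), mem_powersetCard.2 (h1 (Sum.inl true))⟩)
  have adj : ∀ b v, jn b v → Disjoint (f (Sum.inl b)) (f (Sum.inr (i, v))) := fun b v h =>
    h2 _ _ ((SimpleGraph.fromRel_adj _ _ _).2 ⟨by simp, Or.inl h⟩)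
  refine gadget_bad (fun v => f (Sum.inr (i, v))) (fun v x hx => ?_) (fun v => (h1 _).2)
    (fun e he => h2 _ _ ((SimpleGraph.fromRel_adj _ _ _).2 ⟨?_, Or.inl ⟨rfl, he⟩⟩))
  · have := (h1 _).1 hx
    simp only [LL, mem_union] at this
    rcases this with h | h | h
    · exact h
    · split_ifs at h with g
      · exact absurd hx (disjoint_left.1 (adj false v g) h)
      · simp at h
    · split_ifs at h with g
      · exact absurd hx (disjoint_left.1 (adj true v g) h)
      · simp at h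
  · have : ∀ e ∈ edges, e.1 ≠ e.2 := by decide +kernel
    intro h
    exact this e he (congrArg Prod.snd (Sum.inr.inj h))

end Pool.Agent.H295Z.SF
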